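import Pool.Agent.helper62.DP8.Spec

/-! # Project sq8 (MP_e3efbc_co), module CYR: a cycle realises the root state. -/

set_option autoImplicit false

namespace Pool.Agent.helper62.DP8

theorem CYR : CYR_stmt := by
  intro V G g u hg3 hg32 hC
  refine ⟨hg32, hC.inj, ?_, ?_, ?_⟩
  · intro e he
    simp only [root, List.mem_map, List.mem_range] at he
    obtain ⟨i, hi, rfl⟩ := he
    refine ⟨hi, Nat.mod_lt _ (by omega), ?_⟩
    by_cases h : i + 1 < g
    · rw [Nat.mod_eq_of_lt h]; exact hC.adj i
    · have h1 : i + 1 = g := by omega
      have h2 : u 0 = u (i + 1) := by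
        rw [h1]; have := hC.per 0; rw [Nat.zero_add] at this; exact this.symm
      rw [h1, Nat.mod_self, h2]; exact hC.adj i
  · intro e he
    simp [root] at he
  · intro e he
    simp [root] at he

end Pool.Agent.helper62.DP8
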